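import Pool.Agent.Q182.AH.Cvh
import Pool.Agent.Q41.GT.All

/-!
# Project AH (helper41), job A1, without hypotheses
-/

set_option autoImplicit false

namespace Pool.Agent.Q182.AH

open Pool.Agent.Q41.GT

theorem cvh : S_cvh := t_cvh a_ords a_ndw a_crs Pool.Agent.Q24.SU.t_red.{0}

end Pool.Agent.Q182.AH
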