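import Pool.Agent.Q41.GT.Stm6
import Pool.Agent.Q92.GT.H7

/-!
# Project AH (helper41), job A1: heights of cross ratios on curves
-/

set_option autoImplicit false

namespace Pool.Agent.Q182.AH

open Finset Polynomial FF
open Pool.Agent.W602.GT
open Pool.Agent.W603.LV (Ge hgt canDeg vo unif ord_unif der_reg der_pi_ne_zero vo_finite
  canDeg_finset hgt_finset sum_ord_finset)
open Pool.Agent.Q41.SU
open Pool.Agent.Q41.GT
open Pool.Agent.Q92.GT

theorem wro_smul {A : Type*} [CommRing A] {a b : ℕ} (φ : II a b → ℕ × ℕ) (x y : II a b → A) (h : A) :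
    wro φ x (fun l => h * y l) = h ^ cst φ * wro φ x y := by
  unfold wro cst
  have h1 : (Matrix.of fun l c : II a b => x l ^ (φ c).1 * (h * y l) ^ (φ c).2) =
      Matrix.of fun l c : II a b => h ^ (φ c).2 * (Matrix.of fun l c : II a b =>
        x l ^ (φ c).1 * y l ^ (φ c).2) l c := by
    ext l c
    simp only [Matrix.of_apply]
    rw [mul_pow]
    ring
  rw [h1, Matrix.det_mul_row, Finset.prod_pow_eq_pow_sum]

theorem Phi_smul {k K : Type} [Field k] [Field K] [Algebra k K] {a b : ℕ}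
    (φ : II a b → ℕ × ℕ) (E₀ d : ℕ) (α : K → K) (p q : K[X]) (x : II a b → K)
    (D : Derivation k K K) (h : K) :
    Phi φ E₀ d α p q x (h • D) =
      h ^ (cst φ * (2 * ((a + 1) * (b + 1) - 1) * b * (E₀ * (d * (d - 1))))) *
        Phi φ E₀ d α p q x D := by
  unfold Phi
  have h1 : (fun l => (h • D) (x l)) = fun l => h * D (x l) := by
    funext l
    rw [Derivation.coe_smul, Pi.smul_apply, smul_eq_mul]
  rw [h1, wro_smul, mul_pow, ← pow_mul]
  ring

theorem t_cvh (hO : S_ords) (hN : S_ndw) (hC : S_crs) (hR : S_red.{0}) : S_cvh := by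
  classical
  intro d hd
  obtain ⟨a, b, φ, hb, hba, ha2, hφ, hcst, hO⟩ := hO d hd
  obtain ⟨N₀, hN₀⟩ := hN d a b φ hd hφ
  obtain ⟨N'', hN''⟩ := hR d (max N₀ (3 * d + 4)) (by omega)
  refine ⟨N'', fun n hn => ?_⟩
  obtain ⟨E₀, C', hE₀, hO⟩ := hO n
  set m := cst φ * (2 * ((a + 1) * (b + 1) - 1) * b * (E₀ * (d * (d - 1)))) with hm
  refine ⟨C' * m, ?_⟩
  intro k L _ _ _ _ _ _ p q hp hq hpq P hP hcard c hc
  by_cases hcc : IsAlgebraic k c
  · -- constants
    obtain ⟨c0, hc0⟩ := const_of_algebraic hcc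
    have h1 : ∀ v : Place k L, v.ord c = 0 := by
      intro v
      by_contra h
      exact (v.transcendental_of_ord_ne h) hcc
    have h2 : hgt k c = 0 := by
      rw [hgt_finset (k := k) c ∅ (fun v h => absurd (h1 v) h)]
      rfl
    rw [h2]
    positivity
  · have hct : Transcendental k c := hcc
    have hc0 : c ≠ 0 := by
      rintro rfl
      exact hct isAlgebraic_zero
    -- reduction to a surjective stable set
    obtain ⟨P', hP'P, hP', hcard', hsur⟩ := hN'' L p q hp hq hpq P hP (by omega)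
    have halg0 : Algebra.IsAlgebraic (IntermediateField.adjoin k (crs P)) L := by
      have h1 := IsFF.isAlgebraic (K := L) hct
      refine alg_mono (F₁ := IntermediateField.adjoin k {c}) ?_ h1
      exact IntermediateField.adjoin.mono k _ _ (Set.singleton_subset_iff.2 hc)
    have halg := hC k L d p q hd hp hq hpq P P' hP'P hP hP'
      ((le_max_right _ _).trans hcard') halg0
    -- the derivation
    have ht : IsTranscendenceBasis k (fun _ : Fin 1 => c) := by
      have h1 := IsFF.basis (K := L) hct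
      have h2 := h1.comp_equiv (e := (Equiv.equivPUnit (Fin 1)))
      exact h2
    obtain ⟨δ, hδ⟩ := exists_dual ht
    set D := δ 0 with hD
    have hDc : D c = 1 := by
      have h1 := congrFun (congrFun hδ 0) 0
      rw [Matrix.of_apply, Matrix.one_apply_eq] at h1
      exact h1
    have hD0 : D ≠ 0 := by
      intro h
      rw [h] at hDc
      simp at hDc
    have htE : IsTranscendenceBasis k (algebraMap L (AlgebraicClosure L) ∘ (fun _ : Fin 1 => c)) :=
      ht.algebraMap_comp
    obtain ⟨DE, hDE⟩ := exists_der (algebraMap L (AlgebraicClosure L) ∘ (fun _ : Fin 1 => c)) htE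
      (fun _ => 1)
    have hDE' : ∀ x : L, DE (algebraMap L (AlgebraicClosure L) x) = algebraMap L _ (D x) := by
      intro x
      rw [der_expand ht hδ DE x]
      rw [Fin.sum_univ_one]
      have h1 : DE (algebraMap L (AlgebraicClosure L) c) = 1 := hDE 0
      rw [h1, one_mul]
    obtain ⟨x, hx1, hx2, hx3⟩ := hN₀ k L (AlgebraicClosure L) p q hp hq hpq P' hP' hsur
      ((le_max_left _ _).trans hcard') halg DE ⟨c, by rw [hDE', hDc, map_one]; exact one_ne_zero⟩
    have hw0 : wro φ x (fun l => D (x l)) ≠ 0 := by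
      intro h
      apply hx3
      have h1 : (fun l => DE (algebraMap L (AlgebraicClosure L) (x l))) =
          fun l => algebraMap L (AlgebraicClosure L) (D (x l)) := funext fun l => hDE' (x l)
      rw [h1, ← map_wro (algebraMap L (AlgebraicClosure L)) φ x (fun l => D (x l)), h, map_zero]
    -- the forms
    obtain ⟨α, R, hα, hPhi, 𝒢, h𝒢, hGe⟩ := hO k L p q hp hq hpq P hP hcard
    have hF0 : Phi φ E₀ d α p q x D ≠ 0 := by
      have hg : ∀ (g : L → L → L), (∀ z ∈ P', ∀ z' ∈ P', z ≠ z' → g z z' ≠ 0) →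
          pprod g x ≠ 0 := by
        intro g hg
        unfold pprod
        refine Finset.prod_ne_zero_iff.2 fun l _ => Finset.prod_ne_zero_iff.2 fun m hm => ?_
        exact hg _ (hx2 l) _ (hx2 m) fun h => (Finset.ne_of_mem_erase hm) (hx1 h).symm
      unfold Phi
      refine div_ne_zero (mul_ne_zero (pow_ne_zero _ hw0) (pow_ne_zero _ (hg _ ?_)))
        (pow_ne_zero _ (hg _ ?_))
      · intro z _ z' _ hzz
        unfold gfn
        refine div_ne_zero (mul_ne_zero (pow_ne_zero _ (sub_ne_zero.2 hzz)) (pow_ne_zero _ ?_))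
          (pow_ne_zero _ (mul_ne_zero (hα z) (hα z')))
        exact Pool.Agent.W277.UH.res_ne d p q hp hq (by omega) hpq
      · intro z _ z' _ hzz
        exact sub_ne_zero.2 hzz
    set F := Phi φ E₀ d α p q x D with hF
    have hloc : ∀ v : Place k L, (R v : ℤ) + m * vo v D ≤ v.ord F := by
      intro v
      have hπ := ord_unif v
      have h0 : D (unif v) ≠ 0 := der_pi_ne_zero hD0 v hπ
      have hreg : DerReg v ((D (unif v))⁻¹ • D) := by
        intro f hf
        refine der_reg v hπ ((D (unif v))⁻¹ • D) ?_ hf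
        rw [Derivation.coe_smul, Pi.smul_apply, smul_eq_mul, inv_mul_cancel₀ h0]
      have h1 := hPhi v _ hreg x hx1 (fun l => hP'P (hx2 l))
      rw [Phi_smul, ← hF, ← hm] at h1
      have h2 : (D (unif v))⁻¹ ^ m ≠ 0 := pow_ne_zero _ (inv_ne_zero h0)
      have h3 := h1.resolve_left (mul_ne_zero h2 hF0)
      rw [v.ord_mul h2 hF0, v.ord_pow, v.ord_inv] at h3
      have h4 : vo v D = v.ord (D (unif v)) := rfl
      rw [h4]
      linarith
    -- the global part
    obtain ⟨T, hTF, hTG, hTc, hTv⟩ : ∃ T : Finset (Place k L), (∀ v, v.ord F ≠ 0 → v ∈ T) ∧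
        (∀ v, v.ord 𝒢 ≠ 0 → v ∈ T) ∧ (∀ v, v.ord c ≠ 0 → v ∈ T) ∧ (∀ v, vo v D ≠ 0 → v ∈ T) := by
      refine ⟨((FF.finite_support (k := k) F).toFinset ∪ (FF.finite_support (k := k) 𝒢).toFinset) ∪
        ((FF.finite_support (k := k) c).toFinset ∪ (vo_finite hD0).toFinset), ?_, ?_, ?_, ?_⟩
      all_goals
        intro v hv
        simp only [Finset.mem_union, Set.Finite.mem_toFinset, Set.mem_ofPred_eq]
        tauto
    have hs1 : ∑ v ∈ T, v.ord F = 0 := sum_ord_finset F T hTF
    have hs2 : ∑ v ∈ T, v.ord 𝒢 = 0 := sum_ord_finset 𝒢 T hTG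
    have hs3 : ∑ v ∈ T, vo v D = - canDeg k L := canDeg_finset hD0 T hTv
    have hs4 : ∑ v ∈ T, (R v : ℤ) ≤ m * canDeg k L := by
      have h1 : ∑ v ∈ T, ((R v : ℤ) + m * vo v D) ≤ ∑ v ∈ T, v.ord F := Finset.sum_le_sum fun v _ => hloc v
      rw [Finset.sum_add_distrib, ← Finset.mul_sum, hs1, hs3] at h1
      linarith
    rw [hgt_finset (k := k) c T hTc]
    have h5 : ∑ v ∈ T, max (-v.ord c) 0 ≤ ∑ v ∈ T, ((C' : ℤ) * R v + v.ord 𝒢) := by
      refine Finset.sum_le_sum fun v _ => ?_
      have h6 := (hGe v).1.resolve_left h𝒢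
      have h7 := ((hGe v).2 c hc).resolve_left (mul_ne_zero hc0 h𝒢)
      rw [v.ord_mul hc0 h𝒢] at h7
      refine max_le ?_ ?_
      · linarith
      · linarith
    refine h5.trans ?_
    rw [Finset.sum_add_distrib, ← Finset.mul_sum, hs2, add_zero]
    have h8 : (C' : ℤ) * ∑ v ∈ T, (R v : ℤ) ≤ (C' : ℤ) * (m * canDeg k L) :=
      mul_le_mul_of_nonneg_left hs4 (by positivity)
    refine h8.trans ?_
    have h9 : (m : ℤ) * canDeg k L ≤ m * max (canDeg k L) 0 :=
      mul_le_mul_of_nonneg_left (le_max_left _ _) (by positivity)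
    have h10 : (C' : ℤ) * (m * canDeg k L) ≤ (C' : ℤ) * (m * max (canDeg k L) 0) :=
      mul_le_mul_of_nonneg_left h9 (by positivity)
    refine h10.trans (le_of_eq ?_)
    push_cast
    ring

end Pool.Agent.Q182.AH
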